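import Pool.Agent.Helper30K9.FJ.Cyc

/-!
# Finite cyclic models of a permutation, second version

All finite subsets of `F` which are moved into `F` by a power of `σ` are moved by the same power of `g`.
-/

set_option autoImplicit false

namespace Pool.Agent.Helper30K9.FJ3

open Classical
open Pool.Agent.Helper30K9.FJ (exists_len rel rel_iff gb gb_zpow)

variable {X : Type}

/-- a finite cyclic model of `g` near the finite set `F` -/
structure Model (g : Equiv.Perm X) (F : Finset X) where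
  B : Type
  fin : Finite B
  σ : Equiv.Perm B
  ι : F → B
  inj : Function.Injective ι
  step : ∀ x y : F, g x = y → σ (ι x) = ι y
  coh : ∀ n : ℤ, ∃ m : ℤ, ∀ x x' : F, (σ ^ n) (ι x') = ι x → (g ^ m) (x' : X) = x

theorem exists_model (g : Equiv.Perm X) (F : Finset X) : Nonempty (Model g F) := by
  obtain ⟨L, hL, hgood⟩ := exists_len g F
  have hgood' : ∀ x ∈ F, (∀ k : ℤ, (g ^ ((L : ℤ) * k)) x = x) ∨ ∀ y ∈ F, ∀ s : ℤ, (g ^ s) x = y →
      2 * |s| < L ∧ ∀ s' : ℤ, (g ^ s') x = y → s' = s := by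
    intro x hx
    rcases hgood x hx with h | h
    · left
      intro k
      rw [zpow_mul]
      have h1 : ∀ k : ℕ, ((g ^ (L : ℤ)) ^ k) x = x := by
        intro k
        induction k with
        | zero => simp
        | succ k ih => rw [pow_succ, Equiv.Perm.mul_apply, h, ih]
      obtain ⟨n, rfl | rfl⟩ := k.eq_nat_or_neg
      · rw [zpow_natCast]
        exact h1 n
      · rw [zpow_neg, zpow_natCast, Equiv.Perm.inv_eq_iff_eq]
        exact (h1 n).symm
    · exact Or.inr h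
  have hinj : ∀ x ∈ F, ∀ y ∈ F, (∃ k : ℤ, (g ^ ((L : ℤ) * k)) x = y) → x = y := by
    rintro x hx y hy ⟨k, hk⟩
    rcases hgood' x hx with h | h
    · exact (h k).symm.trans hk
    · obtain ⟨h1, -⟩ := h y hy _ hk
      have hk0 : k = 0 := by
        by_contra hne
        have h2 : 1 ≤ |k| := Int.one_le_abs hne
        have h3 : |(L : ℤ) * k| = L * |k| := by rw [abs_mul, Nat.abs_cast]
        have h4 : (L : ℤ) ≤ L * |k| := le_mul_of_one_le_right (by omega) h2
        omega
      rw [hk0] at hk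
      simpa using hk
  let q : X → Quotient (rel g L) := Quotient.mk (rel g L)
  let Q := {b : Quotient (rel g (L : ℤ)) // ∃ x ∈ F, ∃ n : ℤ, b = q ((g ^ n) x)}
  have hQ : ∀ b : Quotient (rel g (L : ℤ)),
      (∃ x ∈ F, ∃ n : ℤ, b = q ((g ^ n) x)) ↔ (∃ x ∈ F, ∃ n : ℤ, gb g L b = q ((g ^ n) x)) := by
    intro b
    constructor
    · rintro ⟨x, hx, n, rfl⟩
      refine ⟨x, hx, 1 + n, ?_⟩
      rw [zpow_add, zpow_one]
      rfl
    · rintro ⟨x, hx, n, h⟩
      refine ⟨x, hx, -1 + n, ?_⟩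
      apply (gb g (L : ℤ)).injective
      rw [h, zpow_add, zpow_neg_one, Equiv.Perm.mul_apply]
      change q ((g ^ n) x) = q (g (g⁻¹ ((g ^ n) x)))
      rw [show g (g⁻¹ ((g ^ n) x)) = (g ^ n) x from Equiv.apply_symm_apply g _]
  let σ : Equiv.Perm Q := (gb g (L : ℤ)).subtypePerm fun b => (hQ b).symm
  have hσ : ∀ (n : ℤ) (b : Q), (((σ ^ n) b : Q) : Quotient (rel g (L : ℤ))) = (gb g L ^ n) b := by
    intro n b
    rw [Equiv.Perm.subtypePerm_zpow]
    rfl
  let ι : F → Q := fun x => ⟨q x, x, x.2, 0, by simp⟩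
  refine ⟨⟨Q, ?_, σ, ι, ?_, ?_, ?_⟩⟩
  · -- finiteness
    have hfin : Finite (F × Fin L) := inferInstance
    refine Finite.of_surjective (α := F × Fin L)
      (fun p => ⟨q ((g ^ ((p.2 : ℕ) : ℤ)) p.1), p.1, p.1.2, _, rfl⟩) ?_
    rintro ⟨b, x, hx, n, rfl⟩
    have hmod : (0 : ℤ) ≤ n % L := Int.emod_nonneg _ (by omega)
    have hlt : n % L < L := Int.emod_lt_of_pos _ (by omega)
    refine ⟨(⟨x, hx⟩, ⟨(n % L).toNat, by omega⟩), Subtype.ext ?_⟩
    simp only
    rw [Int.toNat_of_nonneg hmod]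
    refine rel_iff.2 ⟨n / L, ?_⟩
    rw [← Equiv.Perm.mul_apply, ← zpow_add, Int.mul_ediv_add_emod]
  · intro x y hxy
    have h1 : q x = q y := congrArg Subtype.val hxy
    exact Subtype.ext (hinj x x.2 y y.2 (rel_iff.1 h1))
  · intro x y hxy
    apply Subtype.ext
    change q (g x) = q y
    rw [hxy]
  · intro n
    have hrel : ∀ x x' : F, (σ ^ n) (ι x') = ι x → ∃ k : ℤ, (g ^ ((L : ℤ) * k + n)) (x' : X) = x := by
      intro x x' hx
      have hx1 : q ((g ^ n) x') = q x := by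
        have := congrArg Subtype.val hx
        rw [hσ] at this
        rwa [gb_zpow] at this
      obtain ⟨k, hk⟩ := rel_iff.1 hx1
      rw [← Equiv.Perm.mul_apply, ← zpow_add] at hk
      exact ⟨k, hk⟩
    have comm : ∀ (m : ℤ) (z : X), (g ^ ((L : ℤ) * m + n)) z = (g ^ n) ((g ^ ((L : ℤ) * m)) z) := by
      intro m z
      rw [← Equiv.Perm.mul_apply, ← zpow_add, add_comm]
    by_cases hinf : ∃ x x' : F, (σ ^ n) (ι x') = ι x ∧ ¬ ∀ k : ℤ, (g ^ ((L : ℤ) * k)) (x' : X) = x'
    · obtain ⟨x0, x0', h0, hn0⟩ := hinf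
      obtain ⟨k0, hk0⟩ := hrel x0 x0' h0
      obtain ⟨h3, -⟩ := ((hgood' x0' x0'.2).resolve_left hn0) x0 x0.2 _ hk0
      refine ⟨L * k0 + n, fun x x' hx => ?_⟩
      obtain ⟨k, hk⟩ := hrel x x' hx
      rcases hgood' x' x'.2 with h1 | h1
      · rw [comm, h1 k0, ← hk, comm, h1 k]
      · obtain ⟨h4, -⟩ := h1 x x.2 _ hk
        have hkl : k = k0 := by
          by_contra hne
          have h5 : 1 ≤ |k - k0| := Int.one_le_abs (sub_ne_zero.2 hne)
          have h6 : |(L : ℤ) * (k - k0)| = L * |k - k0| := by rw [abs_mul, Nat.abs_cast]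
          have h7 : (L : ℤ) ≤ L * |k - k0| := le_mul_of_one_le_right (by omega) h5
          have h8 : (L : ℤ) * (k - k0) = (L * k + n) - (L * k0 + n) := by ring
          have h9 := abs_sub ((L : ℤ) * k + n) (L * k0 + n)
          rw [← h8] at h9
          omega
        rw [← hkl]
        exact hk
    · refine ⟨n, fun x x' hx => ?_⟩
      obtain ⟨k, hk⟩ := hrel x x' hx
      have h1 : ∀ k : ℤ, (g ^ ((L : ℤ) * k)) (x' : X) = x' := by
        by_contra h2
        exact hinf ⟨x, x', hx, h2⟩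
      rw [← hk, comm, h1 k]

end Pool.Agent.Helper30K9.FJ3
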