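import Mathlib

/-!
# Functors from sets with relations to groups
-/

set_option autoImplicit false

namespace Pool.Agent.Helper30K9.FJ3

/-- a set `X` with a colouring of its finite sequences by the elements of `K` (a set with any number
of relations) -/
structure Str (K : Type) where
  X : Type
  c : List X → K

/-- embeddings: injective maps which preserve the colours of the finite sequences -/
structure Emb {K : Type} (S T : Str K) where
  f : S.X → T.X
  inj : Function.Injective f
  col : ∀ l : List S.X, T.c (l.map f) = S.c l

/-- the identity -/
def Emb.id {K : Type} (S : Str K) : Emb S S where
  f := fun x => x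
  inj := fun _ _ h => h
  col := fun l => by rw [List.map_id']

/-- the composition of embeddings -/
def Emb.comp {K : Type} {S T U : Str K} (g : Emb T U) (f : Emb S T) : Emb S U where
  f := fun x => g.f (f.f x)
  inj := g.inj.comp f.inj
  col := fun l => by rw [← f.col, ← g.col, List.map_map]; rfl

/-- the induced structure on a subset -/
abbrev Str.res {K : Type} (S : Str K) (F : Set S.X) : Str K :=
  ⟨F, fun l => S.c (l.map Subtype.val)⟩

/-- the inclusion of a subset -/
def incl {K : Type} (S : Str K) (F : Set S.X) : Emb (S.res F) S where
  f := Subtype.val
  inj := Subtype.val_injective
  col := fun _ => rfl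

/-- the automorphism of a structure given by an element of a group which acts on it -/
def act {K : Type} (S : Str K) {G : Type} [Group G] [MulAction G S.X]
    (hc : ∀ (g : G) (l : List S.X), S.c (l.map (g • ·)) = S.c l) (g : G) : Emb S S where
  f := fun x => g • x
  inj := MulAction.injective g
  col := hc g

/-- a functor from the category of the sets with a colouring of the finite sequences and their
embeddings to the category of groups, which maps embeddings to injective homomorphisms and such that
the value on `S` is the union of the images of the values on the finite subsets of `S` -/
structure Fun (K : Type) where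
  obj : Str K → GrpCat.{0}
  map : ∀ {S T : Str K}, Emb S T → (obj S →* obj T)
  map_id : ∀ (S : Str K) (x : obj S), map (Emb.id S) x = x
  map_comp : ∀ {S T U : Str K} (g : Emb T U) (f : Emb S T) (x : obj S),
    map (g.comp f) x = map g (map f x)
  inj : ∀ {S T : Str K} (f : Emb S T), Function.Injective (map f)
  fin : ∀ (S : Str K) (x : obj S), ∃ F : Set S.X, F.Finite ∧ ∃ y, map (incl S F) y = x

end Pool.Agent.Helper30K9.FJ3
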