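import Pool.Agent.Helper30K9.FJ3.Fun
import Pool.Agent.Helper30K9.FJ3.Cyc
import Pool.Agent.Helper30K9.FJ.Fin

/-!
# Kernels which are values of a functor
-/

set_option autoImplicit false

namespace Pool.Agent.Helper30K9.FJ3

open Pool.Agent.Y110.FJ
open Pool.Agent.Y462.SS (Closed)
open Pool.Agent.R630.FJ (MT crit mt_mem)
open Pool.Agent.Helper30K9.FJ (MT_conj)

variable {K : Type}

theorem Emb.ext' {S T : Str K} {f g : Emb S T} (h : ∀ x, f.f x = g.f x) : f = g := by
  cases f
  cases g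
  congr
  exact funext h

theorem list_aux {F B Y : Type} (a b : F → B) (u v : F → Y) (h : ∀ x y, a x = b y → u x = v y) :
    ∀ l l' : List F, l.map a = l'.map b → l.map u = l'.map v := by
  intro l
  induction l with
  | nil =>
    intro l' h1
    cases l' with
    | nil => rfl
    | cons y l' => simp at h1
  | cons x l ih =>
    intro l' h1
    cases l' with
    | nil => simp at h1
    | cons y l' =>
      simp only [List.map_cons, List.cons.injEq] at h1 ⊢
      exact ⟨h x y h1.1, ih l' h1.2⟩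

section model

variable (S : Str K) {g : Equiv.Perm S.X} {F : Finset S.X} (M : Model g F)

open Classical in
/-- the colouring of a model -/
noncomputable def mcol (l : List M.B) : K :=
  if h : ∃ (n : ℤ) (l' : List F), l = l'.map (fun x => (M.σ ^ n) (M.ι x)) then
    S.c (h.choose_spec.choose.map Subtype.val) else S.c []

theorem mcol_pos {l : List M.B}
    (h : ∃ (n : ℤ) (l' : List F), l = l'.map (fun x => (M.σ ^ n) (M.ι x))) :
    mcol S M l = S.c (h.choose_spec.choose.map Subtype.val) := by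
  rw [mcol, dif_pos h]

theorem mcol_neg {l : List M.B}
    (h : ¬ ∃ (n : ℤ) (l' : List F), l = l'.map (fun x => (M.σ ^ n) (M.ι x))) :
    mcol S M l = S.c [] := by
  rw [mcol, dif_neg h]

/-- the structure on a model -/
noncomputable abbrev mstr : Str K := ⟨M.B, mcol S M⟩

variable {S}

theorem mstr_eq (hg : ∀ (n : ℤ) (l : List S.X), S.c (l.map (g ^ n)) = S.c l) (n : ℤ) (l : List F) :
    mcol S M (l.map (fun x => (M.σ ^ n) (M.ι x))) = S.c (l.map Subtype.val) := by
  have h : ∃ (m : ℤ) (l' : List F), l.map (fun x => (M.σ ^ n) (M.ι x)) =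
    l'.map (fun x => (M.σ ^ m) (M.ι x)) := ⟨n, l, rfl⟩
  rw [mcol_pos S M h]
  obtain ⟨k, hk⟩ := M.coh (n - h.choose)
  have h2 := list_aux (fun x => (M.σ ^ n) (M.ι x)) (fun x => (M.σ ^ h.choose) (M.ι x))
    (fun x : F => (g ^ k) (x : S.X)) (fun x : F => (x : S.X)) (fun x y hxy => by
      refine hk y x ?_
      have h3 : (M.σ ^ (n - h.choose)) (M.ι x) = (M.σ ^ (-h.choose)) ((M.σ ^ n) (M.ι x)) := by
        rw [← Equiv.Perm.mul_apply, ← zpow_add]
        congr 2
        ring
      have h4 : (M.σ ^ n) (M.ι x) = (M.σ ^ h.choose) (M.ι y) := hxy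
      rw [h3, h4, ← Equiv.Perm.mul_apply, ← zpow_add, neg_add_cancel, zpow_zero]
      rfl) l _ h.choose_spec.choose_spec
  have h5 : l.map (fun x : F => (g ^ k) (x : S.X)) = (l.map Subtype.val).map (g ^ k) := by
    rw [List.map_map]
    rfl
  rw [← hg k (l.map Subtype.val), ← h5, h2]

theorem mstr_σ (hg : ∀ (n : ℤ) (l : List S.X), S.c (l.map (g ^ n)) = S.c l) (n : ℤ)
    (l : List M.B) : mcol S M (l.map (M.σ ^ n)) = mcol S M l := by
  by_cases h : ∃ (m : ℤ) (l' : List F), l = l'.map (fun x => (M.σ ^ m) (M.ι x))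
  · obtain ⟨m, l', rfl⟩ := h
    rw [mstr_eq M hg m l']
    have h1 : (l'.map (fun x => (M.σ ^ m) (M.ι x))).map (M.σ ^ n) =
        l'.map (fun x => (M.σ ^ (n + m)) (M.ι x)) := by
      rw [List.map_map]
      refine List.map_congr_left fun x _ => ?_
      rw [zpow_add]
      rfl
    rw [h1, mstr_eq M hg]
  · have h' : ¬ ∃ (m : ℤ) (l' : List F), l.map (M.σ ^ n) =
        l'.map (fun x => (M.σ ^ m) (M.ι x)) := by
      rintro ⟨m, l', h1⟩
      refine h ⟨-n + m, l', ?_⟩
      have h2 := congrArg (List.map (M.σ ^ (-n))) h1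
      rw [List.map_map, List.map_map] at h2
      have h3 : (⇑(M.σ ^ (-n)) ∘ ⇑(M.σ ^ n)) = id := by
        funext x
        show (M.σ ^ (-n)) ((M.σ ^ n) x) = x
        rw [← Equiv.Perm.mul_apply, ← zpow_add, neg_add_cancel, zpow_zero]
        rfl
      rw [h3, List.map_id] at h2
      rw [h2]
      refine List.map_congr_left fun x _ => ?_
      show (M.σ ^ (-n)) ((M.σ ^ m) (M.ι x)) = _
      rw [← Equiv.Perm.mul_apply, ← zpow_add]
    rw [mcol_neg S M h', mcol_neg S M h]

/-- the automorphisms of the model -/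
def zemb (hg : ∀ (n : ℤ) (l : List S.X), S.c (l.map (g ^ n)) = S.c l) (n : ℤ) :
    Emb (mstr S M) (mstr S M) where
  f := fun x => (M.σ ^ n) x
  inj := (M.σ ^ n).injective
  col := mstr_σ M hg n

/-- the inclusion in the model -/
def iemb (hg : ∀ (n : ℤ) (l : List S.X), S.c (l.map (g ^ n)) = S.c l) :
    Emb (S.res (F : Set S.X)) (mstr S M) where
  f := fun x => M.ι x
  inj := M.inj
  col := fun l => mstr_eq M hg 0 l

end model

section main

variable {C : ∀ (G : Type) [Group G], Prop}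

theorem main (hC : ClosedE C) (Φ : Fun K) (hΦ : ∀ S : Str K, Finite S.X → C (Φ.obj S))
    (S : Str K) {G : Type} [Group G] [MulAction G S.X]
    (hc : ∀ (g : G) (l : List S.X), S.c (l.map (g • ·)) = S.c l) (N : Subgroup G) [N.Normal]
    (hQ : C (G ⧸ N)) (e : N ≃* Φ.obj S)
    (he : ∀ (g : G) (n : N), e (MulAut.conjNormal g n) = Φ.map (act S hc g) (e n)) : C G := by
  classical
  refine crit C hC G N hQ fun g E hE hEN => ?_
  -- a finite set of points for `E`
  have hmono : ∀ (F F' : Set S.X), F ⊆ F' → ∀ x, (∃ y, Φ.map (incl S F) y = x) →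
      ∃ y, Φ.map (incl S F') y = x := by
    rintro F F' h _ ⟨y, rfl⟩
    let i : Emb (S.res F) (S.res F') :=
      { f := fun x => ⟨x.1, h x.2⟩
        inj := fun x y hxy => Subtype.ext (Subtype.mk.inj hxy)
        col := fun l => by
          show S.c ((l.map _).map Subtype.val) = S.c (l.map Subtype.val)
          rw [List.map_map]
          rfl }
    refine ⟨Φ.map i y, ?_⟩
    rw [← Φ.map_comp]
    rfl
  have hex : ∃ F0 : Finset S.X, ∀ (x : G) (hx : x ∈ E),
      ∃ y, Φ.map (incl S (F0 : Set S.X)) y = e ⟨x, hEN hx⟩ := by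
    have h1 : ∀ E' : Set G, E'.Finite → ∀ hE' : E' ⊆ N, ∃ F0 : Finset S.X,
        ∀ (x : G) (hx : x ∈ E'), ∃ y, Φ.map (incl S (F0 : Set S.X)) y = e ⟨x, hE' hx⟩ := by
      intro E' hE'
      induction E', hE' using Set.Finite.induction_on with
      | empty => exact fun _ => ⟨∅, fun x hx => absurd hx (Set.notMem_empty x)⟩
      | @insert x E' _ _ ih =>
        intro hE'
        obtain ⟨F1, hF1⟩ := ih fun y hy => hE' (Set.mem_insert_of_mem _ hy)
        obtain ⟨F2, hF2, hx⟩ := Φ.fin S (e ⟨x, hE' (Set.mem_insert _ _)⟩)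
        refine ⟨F1 ∪ hF2.toFinset, ?_⟩
        intro y hy
        rcases Set.mem_insert_iff.1 hy with h | h
        · subst h
          refine hmono F2 _ ?_ _ hx
          intro z hz
          simp [hz]
        · refine hmono (F1 : Set S.X) _ ?_ _ (hF1 y h)
          intro z hz
          simp only [Finset.coe_union, Set.mem_union]
          exact Or.inl hz
    exact h1 E hE hEN
  obtain ⟨F0, hF0⟩ := hex
  obtain ⟨F, hF⟩ : ∃ F : Finset S.X, F = F0 ∪ F0.image (fun v => g • v) := ⟨_, rfl⟩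
  have hF1 : ∀ v ∈ F0, v ∈ F := fun v hv => by rw [hF]; exact Finset.mem_union_left _ hv
  have hF2 : ∀ v ∈ F0, g • v ∈ F := fun v hv => by
    rw [hF]; exact Finset.mem_union_right _ (Finset.mem_image_of_mem _ hv)
  let π : Equiv.Perm S.X := MulAction.toPermHom G S.X g
  have hg : ∀ (n : ℤ) (l : List S.X), S.c (l.map (π ^ n)) = S.c l := by
    intro n l
    have h1 := hc (g ^ n) l
    have h2 : (⇑(π ^ n) : S.X → S.X) = fun x => g ^ n • x := by
      funext x
      show ((MulAction.toPermHom G S.X g) ^ n) x = _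
      rw [← map_zpow]
      rfl
    rw [h2]
    exact h1
  obtain ⟨M⟩ := exists_model π F
  have hfin := M.fin
  -- the automorphism of the value on the model
  let σ : MulAut (Φ.obj (mstr S M)) := MonoidHom.toMulEquiv (Φ.map (zemb M hg 1))
    (Φ.map (zemb M hg (-1)))
    (by
      apply MonoidHom.ext
      intro x
      rw [MonoidHom.comp_apply, MonoidHom.id_apply, ← Φ.map_comp]
      have h1 : (zemb M hg (-1)).comp (zemb M hg 1) = Emb.id _ := Emb.ext' fun x => by
        show (M.σ ^ (-1 : ℤ)) ((M.σ ^ (1 : ℤ)) x) = x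
        rw [← Equiv.Perm.mul_apply, ← zpow_add, neg_add_cancel, zpow_zero]
        rfl
      rw [h1, Φ.map_id])
    (by
      apply MonoidHom.ext
      intro x
      rw [MonoidHom.comp_apply, MonoidHom.id_apply, ← Φ.map_comp]
      have h1 : (zemb M hg 1).comp (zemb M hg (-1)) = Emb.id _ := Emb.ext' fun x => by
        show (M.σ ^ (1 : ℤ)) ((M.σ ^ (-1 : ℤ)) x) = x
        rw [← Equiv.Perm.mul_apply, ← zpow_add, add_neg_cancel, zpow_zero]
        rfl
      rw [h1, Φ.map_id])
  have hσ : ∀ x, σ x = Φ.map (zemb M hg 1) x := fun x => rfl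
  have hσk : ∀ (k : ℕ) (x : Φ.obj (mstr S M)), (σ ^ k) x = Φ.map (zemb M hg k) x := by
    intro k
    induction k with
    | zero =>
      intro x
      have h1 : zemb M hg ((0 : ℕ) : ℤ) = Emb.id _ := Emb.ext' fun x => by
        show (M.σ ^ ((0 : ℕ) : ℤ)) x = x
        rw [Nat.cast_zero, zpow_zero]
        rfl
      rw [h1, Φ.map_id, pow_zero]
      rfl
    | succ k ih =>
      intro x
      have h1 : zemb M hg ((k + 1 : ℕ) : ℤ) = (zemb M hg k).comp (zemb M hg 1) :=
        Emb.ext' fun x => by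
          show (M.σ ^ ((k + 1 : ℕ) : ℤ)) x = (M.σ ^ (k : ℤ)) ((M.σ ^ (1 : ℤ)) x)
          rw [← Equiv.Perm.mul_apply, ← zpow_add, Nat.cast_add, Nat.cast_one]
      rw [h1, Φ.map_comp, pow_succ, MulAut.mul_apply, ih, hσ]
  have hCT : C (MT σ) := by
    refine mt_mem σ hC.base (k := orderOf M.σ) (orderOf_pos M.σ) (n₀ := 1) ?_
      (hΦ (mstr S M) M.fin)
    rw [map_one]
    ext x
    rw [hσk, MulAut.one_apply]
    have h1 : zemb M hg ((orderOf M.σ : ℕ) : ℤ) = Emb.id _ := Emb.ext' fun x => by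
      show (M.σ ^ ((orderOf M.σ : ℕ) : ℤ)) x = x
      rw [zpow_natCast, pow_orderOf_eq_one]
      rfl
    rw [h1, Φ.map_id]
  -- the finitely generated subgroup
  let j : Φ.obj (S.res (F : Set S.X)) ≃* (Φ.map (incl S (F : Set S.X))).range :=
    MonoidHom.ofInjective (Φ.inj _)
  let i1 : Emb (S.res (F0 : Set S.X)) (S.res (F : Set S.X)) :=
    { f := fun x => ⟨x.1, hF1 x.1 x.2⟩
      inj := fun x y hxy => Subtype.ext (Subtype.mk.inj hxy)
      col := fun l => by
        show S.c ((l.map _).map Subtype.val) = S.c (l.map Subtype.val)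
        rw [List.map_map]
        rfl }
  let i2 : Emb (S.res (F0 : Set S.X)) (S.res (F : Set S.X)) :=
    { f := fun x => ⟨g • x.1, hF2 x.1 x.2⟩
      inj := fun x y hxy => Subtype.ext (MulAction.injective g (Subtype.mk.inj hxy))
      col := fun l => by
        show S.c ((l.map _).map Subtype.val) = S.c (l.map Subtype.val)
        have h1 := hc g (l.map Subtype.val)
        rw [List.map_map] at h1
        rw [← h1, List.map_map]
        rfl }
  have hconjN : ∀ (x : G) (hx : x ∈ N), g * x * g⁻¹ ∈ N := fun x hx => ‹N.Normal›.conj_mem x hx g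
  have hE1 : ∀ (x : G) (hx : x ∈ E) (u : Φ.obj (S.res (F0 : Set S.X))),
      Φ.map (incl S (F0 : Set S.X)) u = e ⟨x, hEN hx⟩ →
      e ⟨x, hEN hx⟩ = Φ.map (incl S (F : Set S.X)) (Φ.map i1 u) ∧
      e ⟨g * x * g⁻¹, hconjN x (hEN hx)⟩ = Φ.map (incl S (F : Set S.X)) (Φ.map i2 u) := by
    intro x hx u hu
    constructor
    · rw [← hu, ← Φ.map_comp]
      rfl
    · have h1 := he g ⟨x, hEN hx⟩
      rw [← hu, ← Φ.map_comp] at h1
      rw [← Φ.map_comp]
      exact h1
  have hEr : E ∪ (fun x => g * x * g⁻¹) '' E ⊆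
      (((Φ.map (incl S (F : Set S.X))).range.comap e.toMonoidHom).map N.subtype : Subgroup G) := by
    rintro x (hx | ⟨z, hz, rfl⟩)
    · obtain ⟨u, hu⟩ := hF0 x hx
      exact ⟨⟨x, hEN hx⟩, ⟨_, (hE1 x hx u hu).1.symm⟩, rfl⟩
    · obtain ⟨u, hu⟩ := hF0 z hz
      exact ⟨⟨g * z * g⁻¹, hconjN z (hEN hz)⟩, ⟨_, (hE1 z hz u hu).2.symm⟩, rfl⟩
  have hcl := (Subgroup.closure_le _).2 hEr
  have hle : Subgroup.closure (E ∪ (fun x => g * x * g⁻¹) '' E) ≤ N := by
    refine hcl.trans ?_
    rintro _ ⟨y, _, rfl⟩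
    exact y.2
  have hrange : ∀ x : Subgroup.closure (E ∪ (fun x => g * x * g⁻¹) '' E),
      e (Subgroup.inclusion hle x) ∈ (Φ.map (incl S (F : Set S.X))).range := by
    intro x
    obtain ⟨y, hy, hyx⟩ := hcl x.2
    have h1 : y = Subgroup.inclusion hle x := Subtype.ext hyx
    rw [← h1]
    exact hy
  let h : Subgroup.closure (E ∪ (fun x => g * x * g⁻¹) '' E) →*
      (Φ.map (incl S (F : Set S.X))).range :=
    (e.toMonoidHom.comp (Subgroup.inclusion hle)).codRestrict _ hrange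
  have hh : ∀ x (u : Φ.obj (S.res (F : Set S.X))),
      e (Subgroup.inclusion hle x) = Φ.map (incl S (F : Set S.X)) u → j.symm (h x) = u := by
    intro x u hx
    rw [MulEquiv.symm_apply_eq]
    exact Subtype.ext hx
  refine ⟨MT σ, inferInstance, (SemidirectProduct.inl).comp
    ((Φ.map (iemb M hg)).comp (j.symm.toMonoidHom.comp h)),
    SemidirectProduct.inr (Multiplicative.ofAdd (1 : ℤ)), hCT, ?_, ?_⟩
  · refine SemidirectProduct.inl_injective.comp ((Φ.inj _).comp (j.symm.injective.comp ?_))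
    intro x y hxy
    have h1 : e (Subgroup.inclusion hle x) = e (Subgroup.inclusion hle y) :=
      congrArg Subtype.val hxy
    exact Subgroup.inclusion_injective hle (e.injective h1)
  · rintro ⟨x, hx⟩ ⟨y, hy⟩ hxE hyx
    have hyx' : y = g * x * g⁻¹ := hyx
    subst hyx'
    obtain ⟨u, hu⟩ := hF0 x hxE
    obtain ⟨h1, h2⟩ := hE1 x hxE u hu
    have h3 : j.symm (h ⟨x, hx⟩) = Φ.map i1 u := hh ⟨x, hx⟩ _ h1
    have h4 : j.symm (h ⟨g * x * g⁻¹, hy⟩) = Φ.map i2 u := hh ⟨_, hy⟩ _ h2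
    have h5 : Φ.map (iemb M hg) (Φ.map i2 u) = σ (Φ.map (iemb M hg) (Φ.map i1 u)) := by
      rw [hσ, ← Φ.map_comp, ← Φ.map_comp, ← Φ.map_comp]
      have h6 : (iemb M hg).comp i2 = (zemb M hg 1).comp ((iemb M hg).comp i1) :=
        Emb.ext' fun z => by
          show M.ι ⟨g • z.1, hF2 z.1 z.2⟩ = (M.σ ^ (1 : ℤ)) (M.ι ⟨z.1, hF1 z.1 z.2⟩)
          rw [zpow_one]
          exact (M.step ⟨z.1, hF1 z.1 z.2⟩ ⟨g • z.1, hF2 z.1 z.2⟩ rfl).symm
      rw [h6]
      rfl
    have h7 := MT_conj σ (Φ.map (iemb M hg) (Φ.map i1 u))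
    rw [← h5, ← h4, ← h3] at h7
    exact h7

end main

end Pool.Agent.Helper30K9.FJ3
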